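import Pool.Agent.Helper15.BR.Defs

/-!
# BR, front end, piece W1: structure constants of a finite algebra over a domain
-/

set_option autoImplicit false

namespace Pool.Agent.Helper69.BR

open TensorProduct Module Pool.Agent.Helper15.BR

/-- data: `e` is a basis after inverting `h0`, with structure constants `c` -/
structure Str {R A : Type*} [CommRing R] [Ring A] [Algebra R A] {D : ℕ} (e : Fin D → A)
    (c : SC R D) (h0 : R) (κ : A →ₗ[R] (Fin D → R)) : Prop where
  ne : h0 ≠ 0
  mul : ∀ a b, e a * e b = ∑ d, c a b d • e d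
  coord : ∀ x : A, h0 • x = ∑ d, κ x d • e d
  basis : ∀ a, κ (e a) = Pi.single a h0

section

variable {R A F : Type*} [CommRing R] [Ring A] [Algebra R A] [Field F] [Algebra R F]

theorem span_one_tmul : Submodule.span F (Set.range fun x : A => (1 : F) ⊗ₜ[R] x) = ⊤ := by
  rw [eq_top_iff]
  rintro x -
  induction x with
  | zero => exact Submodule.zero_mem _
  | add x y hx hy => exact Submodule.add_mem _ hx hy
  | tmul f a =>
    have h1 : f ⊗ₜ[R] a = f • ((1 : F) ⊗ₜ[R] a) := by
      rw [TensorProduct.smul_tmul', smul_eq_mul, mul_one]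
    rw [h1]
    exact Submodule.smul_mem _ _ (Submodule.subset_span ⟨a, rfl⟩)

theorem exists_basis {D : ℕ} (hD : finrank F (F ⊗[R] A) = D) [FiniteDimensional F (F ⊗[R] A)] :
    ∃ (e : Fin D → A) (b : Basis (Fin D) F (F ⊗[R] A)), ∀ i, b i = (1 : F) ⊗ₜ[R] e i := by
  classical
  obtain ⟨s, hs, hspan, hli⟩ :=
    exists_linearIndependent F (Set.range fun x : A => (1 : F) ⊗ₜ[R] x)
  rw [span_one_tmul] at hspan
  let b0 : Basis s F (F ⊗[R] A) := Basis.mk hli (by rw [Subtype.range_coe, hspan])
  have hb0 : ∀ i, b0 i = i := fun i => by rw [Basis.mk_apply]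
  have : Fintype s := FiniteDimensional.fintypeBasisIndex b0
  have hcard : Fintype.card s = D := by rw [← hD, finrank_eq_card_basis b0]
  let eq : s ≃ Fin D := Fintype.equivFinOfCardEq hcard
  choose g hg using fun i : s => hs i.2
  refine ⟨fun i => g (eq.symm i), b0.reindex eq, fun i => ?_⟩
  rw [Basis.reindex_apply, hb0]
  exact (hg _).symm

variable [IsDomain R] [IsFractionRing R F]

theorem one_tmul_eq_zero {x : A} (h : (1 : F) ⊗ₜ[R] x = 0) : ∃ s : R, s ≠ 0 ∧ s • x = 0 := by
  have h1 : (TensorProduct.mk R F A 1) x = 0 := h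
  rw [IsLocalizedModule.eq_zero_iff (nonZeroDivisors R)] at h1
  obtain ⟨s, hs⟩ := h1
  exact ⟨s, nonZeroDivisors.coe_ne_zero s, hs⟩

/-- a multiple of `x` is a combination of `e` -/
theorem exists_comb {D : ℕ} (e : Fin D → A) (b : Basis (Fin D) F (F ⊗[R] A))
    (hb : ∀ i, b i = (1 : F) ⊗ₜ[R] e i) (x : A) :
    ∃ s : R, s ≠ 0 ∧ ∃ r : Fin D → R, s • x = ∑ d, r d • e d := by
  classical
  obtain ⟨s, hs⟩ := IsLocalization.exist_integer_multiples_of_finset (nonZeroDivisors R)
    (Finset.univ.image fun d => b.repr ((1 : F) ⊗ₜ[R] x) d)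
  have h1 : ∀ d, ∃ r : R, algebraMap R F r = (s : R) • b.repr ((1 : F) ⊗ₜ[R] x) d := fun d =>
    hs _ (Finset.mem_image_of_mem _ (Finset.mem_univ d))
  choose r hr using h1
  have h2 : (1 : F) ⊗ₜ[R] ((s : R) • x - ∑ d, r d • e d) = 0 := by
    rw [TensorProduct.tmul_sub, TensorProduct.tmul_sum, sub_eq_zero, TensorProduct.tmul_smul]
    have h3 := b.sum_repr ((1 : F) ⊗ₜ[R] x)
    rw [← h3, Finset.smul_sum]
    refine Finset.sum_congr rfl fun d _ => ?_
    rw [TensorProduct.tmul_smul, ← hb d, ← algebraMap_smul F (r d), hr, smul_assoc]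
  obtain ⟨t, ht, ht0⟩ := one_tmul_eq_zero h2
  refine ⟨t * s, mul_ne_zero ht (nonZeroDivisors.coe_ne_zero s), fun d => t * r d, ?_⟩
  rw [smul_sub, sub_eq_zero, smul_smul, Finset.smul_sum] at ht0
  rw [ht0]
  exact Finset.sum_congr rfl fun d _ => smul_smul _ _ _

omit [IsDomain R] in
theorem li_of_basis {D : ℕ} (e : Fin D → A) (b : Basis (Fin D) F (F ⊗[R] A))
    (hb : ∀ i, b i = (1 : F) ⊗ₜ[R] e i) {r r' : Fin D → R}
    (h : ∑ d, r d • e d = ∑ d, r' d • e d) : r = r' := by
  have h1 : ∑ d, algebraMap R F (r d) • b d = ∑ d, algebraMap R F (r' d) • b d := by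
    have h2 := congrArg (fun y : A => (1 : F) ⊗ₜ[R] y) h
    simp only [TensorProduct.tmul_sum, TensorProduct.tmul_smul] at h2
    simp only [hb, algebraMap_smul]
    exact h2
  have h3 : (fun d => algebraMap R F (r d)) = fun d => algebraMap R F (r' d) := by
    have h4 := congrArg (fun y => b.equivFun y) h1
    simp only [← b.equivFun_symm_apply, LinearEquiv.apply_symm_apply] at h4
    exact h4
  funext d
  exact IsFractionRing.injective R F (congrFun h3 d)

/-- uniform denominator -/
theorem exists_comb_unif [Module.Finite R A] {D : ℕ} (e : Fin D → A)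
    (b : Basis (Fin D) F (F ⊗[R] A)) (hb : ∀ i, b i = (1 : F) ⊗ₜ[R] e i) :
    ∃ s : R, s ≠ 0 ∧ ∀ x : A, ∃ r : Fin D → R, s • x = ∑ d, r d • e d := by
  classical
  obtain ⟨S, hS⟩ := (Module.finite_def (R := R) (M := A)).1 inferInstance
  choose s hs r hr using exists_comb (F := F) e b hb
  refine ⟨∏ x ∈ S, s x, Finset.prod_ne_zero_iff.2 fun x _ => hs x, fun x => ?_⟩
  have hx : x ∈ Submodule.span R (S : Set A) := by rw [hS]; exact Submodule.mem_top
  induction hx using Submodule.span_induction with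
  | mem y hy =>
    refine ⟨fun d => (∏ z ∈ S.erase y, s z) * r y d, ?_⟩
    rw [← Finset.prod_erase_mul _ _ (Finset.mem_coe.1 hy), mul_smul, hr, Finset.smul_sum]
    exact Finset.sum_congr rfl fun d _ => smul_smul _ _ _
  | zero => exact ⟨0, by simp⟩
  | add y z _ _ hy hz =>
    obtain ⟨r1, h1⟩ := hy
    obtain ⟨r2, h2⟩ := hz
    refine ⟨r1 + r2, ?_⟩
    rw [smul_add, h1, h2, ← Finset.sum_add_distrib]
    exact Finset.sum_congr rfl fun d _ => (add_smul _ _ _).symm
  | smul t y _ hy =>
    obtain ⟨r1, h1⟩ := hy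
    refine ⟨fun d => t * r1 d, ?_⟩
    rw [smul_comm, h1, Finset.smul_sum]
    exact Finset.sum_congr rfl fun d _ => smul_smul _ _ _

/-- **W1** -/
theorem exists_str [Module.Finite R A] {D : ℕ} (hD : finrank F (F ⊗[R] A) = D) :
    ∃ (e : Fin D → A) (c : SC R D) (h0 : R) (κ : A →ₗ[R] (Fin D → R)), Str e c h0 κ ∧
      ∃ b : Basis (Fin D) F (F ⊗[R] A), ∀ i, b i = (1 : F) ⊗ₜ[R] e i := by
  classical
  obtain ⟨e, b, hb⟩ := exists_basis (R := R) (A := A) (F := F) hD
  obtain ⟨s, hs, hcomb⟩ := exists_comb_unif (F := F) e b hb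
  choose r hr using hcomb
  have hsF : algebraMap R F s ≠ 0 := fun h0 =>
    hs ((map_eq_zero_iff _ (IsFractionRing.injective R F)).1 h0)
  let κ : A →ₗ[R] (Fin D → R) :=
    { toFun := r
      map_add' := by
        intro x y
        apply li_of_basis (F := F) e b hb
        rw [← hr, smul_add, hr, hr, ← Finset.sum_add_distrib]
        exact Finset.sum_congr rfl fun d _ => (add_smul _ _ _).symm
      map_smul' := by
        intro t x
        apply li_of_basis (F := F) e b hb
        rw [← hr, smul_comm, hr, Finset.smul_sum]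
        exact Finset.sum_congr rfl fun d _ => smul_smul _ _ _ }
  refine ⟨fun a => s • e a, fun a b' => r (e a * e b'), s * s, κ, ⟨mul_ne_zero hs hs, ?_, ?_, ?_⟩,
    ?_⟩
  · intro a b'
    rw [smul_mul_smul_comm, ← smul_smul, hr (e a * e b'), Finset.smul_sum]
    exact Finset.sum_congr rfl fun d _ => smul_comm _ _ _
  · intro x
    rw [← smul_smul, hr x, Finset.smul_sum]
    exact Finset.sum_congr rfl fun d _ => smul_comm _ _ _
  · intro a
    apply li_of_basis (F := F) e b hb
    change ∑ d, r (s • e a) d • e d = _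
    rw [← hr, smul_smul, Finset.sum_eq_single a]
    · rw [Pi.single_eq_same]
    · intro d _ hd
      rw [Pi.single_eq_of_ne hd, zero_smul]
    · intro h
      exact absurd (Finset.mem_univ a) h
  · refine ⟨b.unitsSMul fun _ => Units.mk0 _ hsF, fun i => ?_⟩
    rw [Basis.unitsSMul_apply, hb, TensorProduct.tmul_smul, Units.smul_def, Units.val_mk0,
      algebraMap_smul]

end

section

variable {R A : Type*} [CommRing R] [Ring A] [Algebra R A] {D : ℕ} {e : Fin D → A}
    {c : SC R D} {h0 : R} {κ : A →ₗ[R] (Fin D → R)}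

/-- the basis after base change -/
theorem Str.exists_basis (h : Str e c h0 κ) (M : Type*) [Field M] [Algebra R M]
    (hM : algebraMap R M h0 ≠ 0) :
    ∃ b : Basis (Fin D) M (M ⊗[R] A), ∀ a, b a = (1 : M) ⊗ₜ[R] e a := by
  classical
  have hspan : ⊤ ≤ Submodule.span M (Set.range fun a => (1 : M) ⊗ₜ[R] e a) := by
    rw [← span_one_tmul (R := R) (A := A) (F := M), Submodule.span_le]
    rintro _ ⟨x, rfl⟩
    have h1 : (1 : M) ⊗ₜ[R] x = (algebraMap R M h0)⁻¹ •
        ∑ d, algebraMap R M (κ x d) • ((1 : M) ⊗ₜ[R] e d) := by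
      have h2 : ∑ d, algebraMap R M (κ x d) • ((1 : M) ⊗ₜ[R] e d) =
          algebraMap R M h0 • ((1 : M) ⊗ₜ[R] x) := by
        rw [algebraMap_smul, ← TensorProduct.tmul_smul, h.coord, TensorProduct.tmul_sum]
        refine Finset.sum_congr rfl fun d _ => ?_
        rw [algebraMap_smul, TensorProduct.tmul_smul]
      rw [h2, smul_smul, inv_mul_cancel₀ hM, one_smul]
    change (1 : M) ⊗ₜ[R] x ∈ _
    rw [h1]
    exact Submodule.smul_mem _ _ (Submodule.sum_mem _ fun d _ =>
      Submodule.smul_mem _ _ (Submodule.subset_span ⟨d, rfl⟩))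
  have hli : LinearIndependent M fun a => (1 : M) ⊗ₜ[R] e a := by
    rw [Fintype.linearIndependent_iff]
    intro g hg i
    have h1 := congrArg (LinearMap.baseChange M κ) hg
    rw [map_sum, map_zero] at h1
    simp only [map_smul, LinearMap.baseChange_tmul, h.basis] at h1
    have h2 := congrArg (LinearMap.baseChange M (LinearMap.proj i : (Fin D → R) →ₗ[R] R)) h1
    rw [map_sum, map_zero] at h2
    simp only [map_smul, LinearMap.baseChange_tmul, LinearMap.proj_apply] at h2
    have h3 := congrArg (TensorProduct.rid R M) h2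
    rw [map_sum, map_zero] at h3
    rw [Finset.sum_eq_single i] at h3
    · rw [TensorProduct.smul_tmul', TensorProduct.rid_tmul, Pi.single_eq_same, smul_eq_mul,
        mul_one, Algebra.smul_def] at h3
      exact (mul_eq_zero.1 h3).resolve_left hM
    · intro a _ ha
      rw [TensorProduct.smul_tmul', TensorProduct.rid_tmul, Pi.single_eq_of_ne (Ne.symm ha),
        zero_smul]
    · intro hi
      exact absurd (Finset.mem_univ i) hi
  exact ⟨Basis.mk hli hspan, fun a => by rw [Basis.mk_apply]⟩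

/-- the products after base change -/
theorem Str.mul_tmul (h : Str e c h0 κ) (M : Type*) [CommRing M] [Algebra R M] (a b : Fin D) :
    ((1 : M) ⊗ₜ[R] e a) * ((1 : M) ⊗ₜ[R] e b) =
      ∑ d, algebraMap R M (c a b d) • ((1 : M) ⊗ₜ[R] e d) := by
  rw [Algebra.TensorProduct.tmul_mul_tmul, mul_one, h.mul, TensorProduct.tmul_sum]
  refine Finset.sum_congr rfl fun d _ => ?_
  rw [algebraMap_smul, TensorProduct.tmul_smul]

end

end Pool.Agent.Helper69.BR
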