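import Pool.Agent.Helper10.BR.Defs

/-!
# BR, front end, piece W3b: Azumaya algebras over the local ring and structure constants
-/

set_option autoImplicit false

namespace Pool.Agent.Helper69.BR

open TensorProduct Module Pool.Agent.Helper15.BR
open scoped Matrix

theorem LR_smul {R : Type*} [CommRing R] {D : ℕ} (h : R) (c : SC R D) :
    LR (mapSC (fun x => h * x) c) = (h ^ 2) • LR c := by
  ext x y
  simp only [LR, mapSC, Matrix.smul_apply, smul_eq_mul, Finset.mul_sum]
  refine Finset.sum_congr rfl fun m _ => ?_
  ring

/-- from a free algebra over the local ring with unit discriminant to `Unr` -/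
theorem unr_of_basis {R O F : Type} [CommRing R] [IsDomain R] [CommRing O] [Field F]
    [Algebra R O] [Algebra R F] [Algebra O F] [IsScalarTower R O F] [IsFractionRing R F]
    {P : R} [hp : (Ideal.span {P}).IsPrime] [IsLocalization.AtPrime O (Ideal.span {P})]
    {B : Type} [Ring B] [Algebra O B] {A : Type} [Ring A] [Algebra F A] {D : ℕ}
    (e : Basis (Fin D) F A) {c : SC R D}
    (hc : ∀ i j, e i * e j = ∑ k, algebraMap R F (c i j k) • e k)
    (ψ : F ⊗[O] B ≃ₐ[F] A) (b : Basis (Fin D) O B) {c2 : SC O D}
    (hc2 : ∀ i j, b i * b j = ∑ k, c2 i j k • b k) (hu : IsUnit (LR c2).det) : Unr P c := by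
  classical
  -- denominators of `c2`
  obtain ⟨h, hh⟩ := IsLocalization.exist_integer_multiples_of_finite
    (Ideal.span {P}).primeCompl (fun x : Fin D × Fin D × Fin D => c2 x.1 x.2.1 x.2.2)
  choose c1' hc1' using hh
  let c1 : SC R D := fun i j k => c1' (i, j, k)
  have hc1 : ∀ i j k, algebraMap R O (c1 i j k) = algebraMap R O h * c2 i j k := by
    intro i j k
    have := hc1' (i, j, k)
    simp only [Algebra.smul_def] at this
    exact this
  -- the basis of `A` coming from `b`
  let β : Basis (Fin D) F A := (Algebra.TensorProduct.basis F b).map ψ.toLinearEquiv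
  have hβ : ∀ i, β i = ψ (1 ⊗ₜ[O] b i) := fun i => by
    simp [β, Algebra.TensorProduct.basis_apply]
  have hββ : ∀ i j, β i * β j = ∑ k, algebraMap O F (c2 i j k) • β k := by
    intro i j
    rw [hβ, hβ, ← map_mul, Algebra.TensorProduct.tmul_mul_tmul, mul_one, hc2,
      TensorProduct.tmul_sum, map_sum]
    refine Finset.sum_congr rfl fun k _ => ?_
    rw [hβ, TensorProduct.tmul_smul, ← algebraMap_smul F (c2 i j k) ((1 : F) ⊗ₜ[O] b k), map_smul]
  -- denominators of the matrix
  obtain ⟨s, hs⟩ := IsLocalization.exist_integer_multiples_of_finite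
    (nonZeroDivisors R) (fun x : Fin D × Fin D => e.repr (β x.1) x.2)
  choose g' hg' using hs
  let g : Matrix (Fin D) (Fin D) R := fun i a => g' (i, a)
  have hg : ∀ i a, algebraMap R F (g i a) = algebraMap R F s * e.repr (β i) a := by
    intro i a
    have := hg' (i, a)
    simp only [Algebra.smul_def] at this
    exact this
  have hs0 : (s : R) ≠ 0 := nonZeroDivisors.coe_ne_zero s
  have hsF : algebraMap R F s ≠ 0 := by
    rw [Ne, FaithfulSMul.algebraMap_eq_zero_iff]
    exact hs0
  have hinj : Function.Injective (algebraMap R F) := IsFractionRing.injective R F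
  have hsβ : ∀ i, algebraMap R F s • β i = ∑ a, algebraMap R F (g i a) • e a := by
    intro i
    conv_lhs => rw [← e.sum_repr (β i), Finset.smul_sum]
    refine Finset.sum_congr rfl fun a _ => ?_
    rw [hg, smul_smul]
  refine ⟨g, s, h, c1, ?_, hs0, ?_, ?_, ?_⟩
  · -- determinant
    have h1 : (g.map (algebraMap R F)) = (algebraMap R F s) • (e.toMatrix β)ᵀ := by
      ext i a
      simp only [Matrix.map_apply, hg, Matrix.smul_apply, Matrix.transpose_apply,
        Basis.toMatrix_apply, smul_eq_mul]
    have h2 : algebraMap R F g.det ≠ 0 := by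
      rw [RingHom.map_det, RingHom.mapMatrix_apply, h1, Matrix.det_smul, Matrix.det_transpose]
      refine mul_ne_zero (pow_ne_zero _ hsF) ?_
      have h3 := e.toMatrix_mul_toMatrix_flip β
      intro h0
      have h4 := congrArg Matrix.det h3
      rw [Matrix.det_mul, h0, zero_mul, Matrix.det_one] at h4
      exact zero_ne_one h4
    intro h0
    exact h2 (by rw [h0, map_zero])
  · intro hd
    exact h.2 (Ideal.mem_span_singleton.2 hd)
  · intro hd
    have h1 : (LR c1).det ∉ (Ideal.span {P}).primeCompl := fun h2 =>
      h2 (Ideal.mem_span_singleton.2 hd)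
    rw [← IsLocalization.AtPrime.isUnit_to_map_iff O] at h1
    apply h1
    have h2 : mapSC (algebraMap R O) c1 = mapSC (fun x => algebraMap R O h * x) c2 := by
      funext i j k
      exact hc1 i j k
    rw [← det_LR_map, h2, LR_smul, Matrix.det_smul]
    exact (((IsLocalization.map_units O h).pow 2).pow _).mul hu
  · intro i j d
    apply hinj
    simp only [map_mul, map_sum]
    -- compute `h • (s β i) * (s β j)` in two ways
    have h1 : (algebraMap R F s • β i) * (algebraMap R F s • β j) =
        ∑ d, (∑ a, ∑ b, algebraMap R F (g i a) * algebraMap R F (g j b) *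
          algebraMap R F (c a b d)) • e d := by
      rw [hsβ, hsβ, Finset.sum_mul]
      simp_rw [Finset.mul_sum, smul_mul_smul_comm, hc, Finset.smul_sum, smul_smul,
        Finset.sum_smul]
      rw [Finset.sum_comm]
      conv_lhs =>
        enter [2, b]
        rw [Finset.sum_comm]
      rw [Finset.sum_comm]
      refine Finset.sum_congr rfl fun d _ => ?_
      rw [Finset.sum_comm]
    have h2 : algebraMap R F h • ((algebraMap R F s • β i) * (algebraMap R F s • β j)) =
        algebraMap R F s • ∑ d, (∑ k, algebraMap R F (c1 i j k) * algebraMap R F (g k d)) • e d := by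
      rw [smul_mul_smul_comm, hββ]
      have h3 : ∀ k, algebraMap R F (c1 i j k) = algebraMap R F h * algebraMap O F (c2 i j k) := by
        intro k
        rw [IsScalarTower.algebraMap_apply R O F, hc1, map_mul, ← IsScalarTower.algebraMap_apply]
      have h4 : ∑ d, (∑ k, algebraMap R F (c1 i j k) * algebraMap R F (g k d)) • e d =
          ∑ k, algebraMap R F (c1 i j k) • (algebraMap R F s • β k) := by
        simp_rw [hsβ, Finset.smul_sum, smul_smul, Finset.sum_smul]
        rw [Finset.sum_comm]
      rw [h4]
      simp_rw [h3, Finset.smul_sum, smul_smul]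
      refine Finset.sum_congr rfl fun k _ => ?_
      congr 1
      ring
    rw [h1] at h2
    have h5 := congrArg (fun x => e.repr x d) h2
    simp only [map_smul, Finsupp.smul_apply, smul_eq_mul, Basis.repr_sum_self] at h5
    exact h5

/-- an algebra of dimension `D` over the fraction field, finite and projective over the local
ring, has a basis of `D` elements -/
theorem exists_basis_fin {R O F : Type} [CommRing R] [IsDomain R] [CommRing O] [Field F]
    [Algebra R O] [Algebra R F] [Algebra O F] [IsScalarTower R O F] [IsFractionRing R F]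
    (q : Ideal R) [q.IsPrime] [IsLocalization.AtPrime O q]
    {B : Type} [Ring B] [Algebra O B] [Module.Finite O B] [Module.Projective O B]
    {A : Type} [Ring A] [Algebra F A] {D : ℕ}
    (e : Basis (Fin D) F A) (ψ : F ⊗[O] B ≃ₐ[F] A) : Nonempty (Basis (Fin D) O B) := by
  have hO : IsLocalRing O := IsLocalization.AtPrime.isLocalRing O q
  have hfree : Module.Free O B := Module.free_of_flat_of_isLocalRing
  let b0 := Module.Free.chooseBasis O B
  have h1 : Module.finrank F (F ⊗[O] B) = Fintype.card (Module.Free.ChooseBasisIndex O B) :=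
    Module.finrank_eq_card_basis (Algebra.TensorProduct.basis F b0)
  have h2 : Module.finrank F (F ⊗[O] B) = D := by
    rw [LinearEquiv.finrank_eq ψ.toLinearEquiv, Module.finrank_eq_card_basis e, Fintype.card_fin]
  exact ⟨b0.reindex (Fintype.equivFinOfCardEq (h1.symm.trans h2))⟩

/-- **W3b**, from W3a for the algebra `B` -/
theorem unr_of_azumaya_of {R O F : Type} [CommRing R] [IsDomain R] [CommRing O] [Field F]
    [Algebra R O] [Algebra R F] [Algebra O F] [IsScalarTower R O F] [IsFractionRing R F]
    {P : R} [hp : (Ideal.span {P}).IsPrime] [IsLocalization.AtPrime O (Ideal.span {P})]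
    {B : Type} [Ring B] [Algebra O B] [IsAzumaya O B] {A : Type} [Ring A] [Algebra F A] {D : ℕ}
    (hw : ∀ (b : Basis (Fin D) O B) (c : SC O D), (∀ i j, b i * b j = ∑ k, c i j k • b k) →
      IsUnit (LR c).det)
    (e : Basis (Fin D) F A) {c : SC R D}
    (hc : ∀ i j, e i * e j = ∑ k, algebraMap R F (c i j k) • e k)
    (ψ : F ⊗[O] B ≃ₐ[F] A) : Unr P c := by
  obtain ⟨b⟩ := exists_basis_fin (Ideal.span {P}) e ψ
  have hc2 : ∀ i j, b i * b j = ∑ k, (b.repr (b i * b j) k) • b k := fun i j =>
    (b.sum_repr (b i * b j)).symm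
  exact unr_of_basis e hc ψ b hc2 (hw b _ hc2)

end Pool.Agent.Helper69.BR
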