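import Pool.Agent.Helper15.BR.Azu
import Pool.Agent.Helper69.BR.UnrAz

/-!
# BR, front end, piece W3b
-/

set_option autoImplicit false

namespace Pool.Agent.Helper69.BR

open TensorProduct Module Pool.Agent.Helper15.BR

/-- **W3b**: `B` is free over the local ring; write its basis in terms of `e` and clear
the denominators -/
theorem unr_of_azumaya {R O F : Type} [CommRing R] [IsDomain R] [CommRing O] [Field F]
    [Algebra R O] [Algebra R F] [Algebra O F] [IsScalarTower R O F] [IsFractionRing R F]
    {P : R} [hp : (Ideal.span {P}).IsPrime] [IsLocalization.AtPrime O (Ideal.span {P})]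
    {B : Type} [Ring B] [Algebra O B] [IsAzumaya O B] {A : Type} [Ring A] [Algebra F A] {D : ℕ}
    (e : Basis (Fin D) F A) {c : SC R D}
    (hc : ∀ i j, e i * e j = ∑ k, algebraMap R F (c i j k) • e k)
    (ψ : F ⊗[O] B ≃ₐ[F] A) : Unr P c :=
  unr_of_azumaya_of (fun b _ h => Pool.Agent.Helper15.BR.isUnit_of_azumaya b h) e hc ψ

end Pool.Agent.Helper69.BR
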